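import Pool.Agent.W921.VP.DefsB

/-! # VP-ISO : isomorphisms of structures of tuples -/

set_option autoImplicit false

namespace Pool.Agent.W970.VPISO

open FirstOrder Set
open FirstOrder.Language (Theory BoundedFormula)
open Pool.Agent.W921.VP

/-- isomorphisms preserve truth -/
lemma real_iso {L : FirstOrder.Language.{0, 0}} [L.IsRelational] {M N : Type}
    (S : L.Structure M) (S' : L.Structure N) (f : M ≃ N)
    (hf : ∀ (n : ℕ) (R : L.Relations n) (s : Fin n → M),
      S.RelMap R s ↔ S'.RelMap R (fun i => f (s i))) {n : ℕ} (φ : L.BoundedFormula Empty n)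
    (a : Fin n → M) :
    @BoundedFormula.Realize L M S Empty n φ Empty.elim a ↔
      @BoundedFormula.Realize L N S' Empty n φ Empty.elim (fun i => f (a i)) := by
  letI := S
  letI := S'
  let g : L.Equiv M N :=
    { toEquiv := f
      map_fun' := fun F => isEmptyElim F
      map_rel' := fun R s => (hf _ R s).symm }
  have h := FirstOrder.Language.StrongHomClass.realize_boundedFormula g φ
    (v := (Empty.elim : Empty → M)) (xs := a)
  have e : (g ∘ (Empty.elim : Empty → M)) = Empty.elim := funext fun x => x.elim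
  rw [e] at h
  exact h.symm

section one

variable {L : FirstOrder.Language.{0, 0}} {X Y : Type}

lemma one_eq (s : Fin 1 → X) : s = ![s 0] := by
  funext i
  obtain rfl : i = 0 := Subsingleton.elim _ _
  rfl

lemma two_eq (s : Fin 2 → X) : s = ![s 0, s 1] := by
  funext i
  refine Fin.cases rfl (fun j => ?_) i
  obtain rfl : j = 0 := Subsingleton.elim _ _
  rfl

lemma map_one (e : X → Y) (x : X) : (fun i => e ((![x] : Fin 1 → X) i)) = ![e x] :=
  one_eq _

lemma map_two (e : X → Y) (x y : X) : (fun i => e ((![x, y] : Fin 2 → X) i)) = ![e x, e y] :=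
  two_eq _

/-- an equivalence is an isomorphism iff it preserves `Len`, `Sat`, `Sub` -/
lemma iso_iff (N : (TL L).Structure X) (N' : (TL L).Structure Y) (e : X → Y) :
    (∀ (n : ℕ) (R : (TL L).Relations n) (s : Fin n → X),
      N.RelMap R s ↔ N'.RelMap R (fun i => e (s i))) ↔
    (∀ n x, Len N n x ↔ Len N' n (e x)) ∧ (∀ n φ x, Sat N n φ x ↔ Sat N' n φ (e x)) ∧
      ∀ n k v x y, Sub N n k v x y ↔ Sub N' n k v (e x) (e y) := by
  constructor
  · intro h
    refine ⟨fun n x => ?_, fun n φ x => ?_, fun n k v x y => ?_⟩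
    · have := h 1 (TRel.len n) ![x]
      rw [map_one] at this
      exact this
    · have := h 1 (TRel.sat n φ) ![x]
      rw [map_one] at this
      exact this
    · have := h 2 (TRel.sub n k v) ![x, y]
      rw [map_two] at this
      exact this
  · rintro ⟨h1, h2, h3⟩ n R s
    have key : ∀ (n : ℕ) (R : TRel L n) (s : Fin n → X),
        N.RelMap (show (TL L).Relations n from R) s ↔
          N'.RelMap (show (TL L).Relations n from R) (fun i => e (s i)) := by
      intro n R
      cases R with
      | len m =>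
        intro s
        rw [one_eq s, map_one]
        exact h1 m (s 0)
      | sat m φ =>
        intro s
        rw [one_eq s, map_one]
        exact h2 m φ (s 0)
      | sub m k v =>
        intro s
        rw [two_eq s, map_two]
        exact h3 m k v (s 0) (s 1)
    exact key n R s

end one

section ent

variable {L : FirstOrder.Language.{0, 0}} {X : Type} {T : L.Theory} {N : (TL L).Structure X}

lemma ent_unique_a (h : Ax T N) {n : ℕ} {x : X} {a b : Fin n → Pt N} (ha : Ent N x a)
    (hb : Ent N x b) : a = b := by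
  funext i
  exact Subtype.ext (h.sub_fun _ _ _ _ _ _ (ha.2 i) (hb.2 i))

lemma sub_ent (h : Ax T N) {n k : ℕ} {v : Fin k → Fin n} {x y : X} {a : Fin n → Pt N}
    (ha : Ent N x a) (hs : Sub N n k v x y) : Ent N y (a ∘ v) := by
  refine ⟨(h.sub_len _ _ _ _ _ hs).2, fun i => ?_⟩
  obtain ⟨z, hz⟩ := h.sub_tot k 1 (fun _ => i) y (h.sub_len _ _ _ _ _ hs).2
  have h1 := h.sub_comp _ _ _ _ _ _ _ _ hs hz
  have h2 : z = a (v i) := h.sub_fun _ _ _ _ _ _ h1 (ha.2 (v i))
  rw [h2] at hz
  exact hz

lemma sub_iff (h : Ax T N) (hu : ∀ (n : ℕ) (a : Fin n → Pt N), ∃! x, Ent N x a)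
    {n k : ℕ} {v : Fin k → Fin n} {x y : X} {a : Fin n → Pt N}
    (ha : Ent N x a) : Sub N n k v x y ↔ Ent N y (a ∘ v) := by
  refine ⟨sub_ent h ha, fun hy => ?_⟩
  obtain ⟨y', hy'⟩ := h.sub_tot n k v x ha.1
  have h1 := sub_ent h ha hy'
  have h2 : y = y' := (hu k (a ∘ v)).unique hy h1
  rw [h2]
  exact hy'

/-- all points: tuples and junk -/
lemma param (h : Ax T N) (hu : ∀ (n : ℕ) (a : Fin n → Pt N), ∃! x, Ent N x a)
    (ht : ∀ (n : ℕ) (x : X), Len N n x → ∃ a : Fin n → Pt N, Ent N x a) :
    ∃ P : ((Σ n, Fin n → Pt N) ⊕ junk N) ≃ X,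
      (∀ n (a : Fin n → Pt N), Ent N (P (Sum.inl ⟨n, a⟩)) a) ∧
      ∀ j : junk N, P (Sum.inr j) = j := by
  choose tp htp _ using fun (p : Σ n, Fin n → Pt N) => hu p.1 p.2
  have hbij : Function.Bijective (Sum.elim tp (Subtype.val : junk N → X)) := by
    constructor
    · rintro (⟨n, a⟩ | j) (⟨m, b⟩ | j') he
      · have he' : tp ⟨n, a⟩ = tp ⟨m, b⟩ := he
        have h1 := htp ⟨n, a⟩
        have h2 := htp ⟨m, b⟩
        rw [← he'] at h2
        have hnm : n = m := by
          by_contra hne
          exact h.len_disj n m _ hne h1.1 h2.1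
        subst hnm
        have := ent_unique_a h h1 h2
        simp only at this
        rw [this]
      · exfalso
        have he' : tp ⟨n, a⟩ = j' := he
        exact j'.2 n (he' ▸ (htp ⟨n, a⟩).1)
      · exfalso
        have he' : (j : X) = tp ⟨m, b⟩ := he
        exact j.2 m (he'.symm ▸ (htp ⟨m, b⟩).1)
      · have he' : (j : X) = j' := he
        rw [Subtype.ext he']
    · intro x
      by_cases hx : ∃ n, Len N n x
      · obtain ⟨n, hn⟩ := hx
        obtain ⟨a, ha⟩ := ht n x hn
        exact ⟨Sum.inl ⟨n, a⟩, (hu n a).unique (htp ⟨n, a⟩) ha⟩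
      · exact ⟨Sum.inr ⟨x, fun n hn => hx ⟨n, hn⟩⟩, rfl⟩
  exact ⟨Equiv.ofBijective _ hbij, fun n a => htp ⟨n, a⟩, fun j => rfl⟩

end ent

/-- countable sets with the same `encard` -/
lemma equiv_of_encard {X Y : Type} (hX : Countable X) (hY : Countable Y) (s : Set X) (t : Set Y)
    (h : s.encard = t.encard) : Nonempty (s ≃ t) := by
  apply Cardinal.eq.1
  apply Cardinal.toENat_injOn
  · exact Cardinal.mk_le_aleph0
  · exact Cardinal.mk_le_aleph0
  · exact h

theorem task (hdec : S_DEC) : S_ISO := by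
  intro L _ T X Y N N' hX hY hN hN'
  obtain ⟨u1, t1, r1, _, _⟩ := hdec L T X N hN
  obtain ⟨u2, t2, r2, _, _⟩ := hdec L T Y N' hN'
  constructor
  · rintro ⟨e, he⟩
    obtain ⟨h1, h2, h3⟩ := (iso_iff N N' e).1 he
    let f : Pt N ≃ Pt N' := e.subtypeEquiv (fun x => h1 1 x)
    have hf : ∀ x : Pt N, ((f x : Pt N') : Y) = e x := fun x => rfl
    refine ⟨f, fun n R s => ?_⟩
    have hE : ∀ x, Ent N x s ↔ Ent N' (e x) (fun i => f (s i)) := by
      intro x
      unfold Ent
      rw [← h1]
      refine and_congr_right fun _ => forall_congr' fun i => ?_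
      rw [hf, ← h3]
    show (∃ x, Ent N x s ∧ Sat N n (relF n R id) x) ↔
      ∃ y, Ent N' y (fun i => f (s i)) ∧ Sat N' n (relF n R id) y
    constructor
    · rintro ⟨x, hx1, hx2⟩
      exact ⟨e x, (hE x).1 hx1, (h2 _ _ _).1 hx2⟩
    · rintro ⟨y, hy1, hy2⟩
      refine ⟨e.symm y, ?_, ?_⟩
      · rw [hE, e.apply_symm_apply]
        exact hy1
      · rw [h2, e.apply_symm_apply]
        exact hy2
  · rintro ⟨f, hf⟩ hj
    obtain ⟨j⟩ := equiv_of_encard hX hY _ _ hj
    obtain ⟨P, hP1, hP2⟩ := param hN u1 t1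
    obtain ⟨P', hP1', hP2'⟩ := param hN' u2 t2
    let F : (Σ n, Fin n → Pt N) ≃ (Σ n, Fin n → Pt N') :=
      Equiv.sigmaCongrRight fun n => Equiv.arrowCongr (Equiv.refl (Fin n)) f
    let g : X ≃ Y := P.symm.trans ((F.sumCongr j).trans P')
    have hg1 : ∀ n (a : Fin n → Pt N) x, Ent N x a → Ent N' (g x) (fun i => f (a i)) := by
      intro n a x hx
      have hx' : x = P (Sum.inl ⟨n, a⟩) := (u1 n a).unique hx (hP1 n a)
      have : g x = P' (Sum.inl ⟨n, fun i => f (a i)⟩) := by
        show P' ((F.sumCongr j) (P.symm x)) = _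
        rw [hx', P.symm_apply_apply]
        rfl
      rw [this]
      exact hP1' n _
    have hg2 : ∀ x, (∀ n, ¬ Len N n x) → ∀ n, ¬ Len N' n (g x) := by
      intro x hx
      have hx' : x = P (Sum.inr ⟨x, hx⟩) := (hP2 ⟨x, hx⟩).symm
      have : g x = (j ⟨x, hx⟩ : Y) := by
        show P' ((F.sumCongr j) (P.symm x)) = _
        conv_lhs => rw [hx', P.symm_apply_apply]
        exact hP2' _
      rw [this]
      exact (j ⟨x, hx⟩).2
    have hlen : ∀ n x, Len N n x ↔ Len N' n (g x) := by
      intro n x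
      constructor
      · intro hx
        obtain ⟨a, ha⟩ := t1 n x hx
        exact (hg1 n a x ha).1
      · intro hx
        by_cases hjx : ∃ m, Len N m x
        · obtain ⟨m, hm⟩ := hjx
          obtain ⟨a, ha⟩ := t1 m x hm
          have h1 := (hg1 m a x ha).1
          have : m = n := by
            by_contra hne
            exact hN'.len_disj m n _ hne h1 hx
          rwa [this] at hm
        · push Not at hjx
          exact absurd hx (hg2 x hjx n)
    refine ⟨g, (iso_iff N N' g).2 ⟨hlen, ?_, ?_⟩⟩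
    · intro n φ x
      by_cases hx : Len N n x
      · obtain ⟨a, ha⟩ := t1 n x hx
        rw [r1 n x a φ ha, r2 n (g x) _ φ (hg1 n a x ha)]
        exact real_iso (dec N) (dec N') f hf φ a
      · constructor
        · intro h; exact absurd (hN.sat_len _ _ _ h) hx
        · intro h; exact absurd ((hlen n x).2 (hN'.sat_len _ _ _ h)) hx
    · intro n k v x y
      by_cases hx : Len N n x
      · obtain ⟨a, ha⟩ := t1 n x hx
        rw [sub_iff hN u1 ha, sub_iff hN' u2 (hg1 n a x ha)]
        constructor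
        · intro hy
          exact hg1 k _ y hy
        · intro hy
          obtain ⟨y', hy', _⟩ := u1 k (a ∘ v)
          have h1 := hg1 k _ y' hy'
          have h2 : g y = g y' := (u2 k _).unique hy h1
          rw [g.injective h2]
          exact hy'
      · constructor
        · intro h; exact absurd (hN.sub_len _ _ _ _ _ h).1 hx
        · intro h; exact absurd ((hlen n x).2 (hN'.sub_len _ _ _ _ _ h).1) hx

end Pool.Agent.W970.VPISO
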